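import Mathlib
import Pool.Agent.Q225.SP.MinPlus
import Pool.Agent.Q225.SP.Local

/-!
# Shortest paths: readings weighted by dependence

A directed graph has three layers of `n` vertices and the edge weights `A i k` (first to second
layer), `B k j` (second to third layer) and `C i j` (first to third layer), integers in
`{1, …, n + 1}`. Is some edge `i → j` longer than a path `i → k → j`? The items of the input are the
weights of all edges at `i`, for each vertex `i` of the first layer, and the matrix `B`.

A real formula (`Fml`, `Pool.Agent.Y638.RF.Defs`) is built from real constants, arbitrary real
functions of one item, and arbitrary real functions of `w` words with `n ^ c` values (words of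
`c log₂ n` bits), where each word is an arbitrary function of one item, by sums, products, sign tests
`pos` (with the values `0`, `1`), and gates `sym` of any fan-in whose value is an arbitrary real
function of the number of positive inputs. In a branching program (`BP`) every inner node tests
whether a real formula accepts.

A circuit (`Circuit`, `Pool.Agent.Q225.SP.Defs`) consists of any number of gates. Each gate is a
branching program of size at most `n ^ a` which may read the items and the bits computed by all
earlier gates (in the formulas, the bits of the earlier gates are further items). A bit may be used
any number of times. The load of a circuit is the number of readings, where the reading of the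
weights at a vertex of the first layer counts one, and the reading of a bit counts the number of
vertices of the first layer on whose weights this bit depends (directly, or by other gates). So
everything that is computed from the matrix `B` alone (in any number of gates) is free, and it may be
read free of charge.

1. Random circuits with error probability at most `1 / 3` need
   `n ^ 3 ≤ 1900 (a + w c) E [load]`, for `n ≥ 64` and `1 ≤ a ≤ n`.
2. If each bit that may be used depends on the weights at no more than `d` vertices of the first
   layer, then the expected number of readings is at least `n ^ 3 / (1900 d (a + w c))`.
3. Exhaustive search is a circuit without shared gates with load at most `n ^ 3`, so for constant `a`,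
   `w` and `c` the first bound is optimal up to a constant factor.

The starting results in this folder are about circuits over the full binary basis whose shared gates
depend on few vertices (`LocalSharing`), and about branching programs over real formulas without
shared bits (`RealPrograms`).

Proof. The weights at a vertex of the first layer can ask for about `n ^ 2 log₂ n` bits of the matrix
`B` (binary search for each entry), by only `n ^ 3` different values. We count the functions of these
weights which arise at the gates which depend on them, when the other items are fixed: for given
functions at the earlier gates, a gate is a branching program in one item (these weights with the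
functions of the earlier dependent gates) and in independent parameters (everything else, also the
bits of the gates which do not depend on these weights), which has `2 ^ O (r (a + w c) log n)`
functions, if `r` readings depend on these weights (Warren's bound, `Pool.Agent.Y638.RF.Prog`). The
sum of these numbers `r` over all gates and all vertices is the load.
-/

set_option autoImplicit false

namespace Pool.Agent.Results.MP_885423_lc.DependenceWeightedReads

open Pool.Agent.TH697.Form (IsProb)
open Pool.Agent.TH697.Row (ApproximatesOn)
open Pool.Agent.TH697.Form.MinPlus (Item InRange shortcut)
open Pool.Agent.Q225.SP

theorem result :
    (∀ n a c w : ℕ, 64 ≤ n → 1 ≤ a → a ≤ n → 1 ≤ w →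
      ∀ (Ω : Type) [Fintype Ω] (μ : Ω → ℝ), IsProb μ →
        ∀ C : Ω → Circuit (Option (Fin n)) (Item n) w (n ^ c), (∀ ω, (C ω).SizeLE (n ^ a)) →
          ApproximatesOn μ (fun ω => (C ω).eval) (InRange n (n + 1)) (shortcut n) →
          (n : ℝ) ^ 3 ≤ 1900 * (a + w * c) * mean μ (fun ω => (C ω).load (somes n))) ∧
    (∀ n a c w d : ℕ, 64 ≤ n → 1 ≤ a → a ≤ n → 1 ≤ w → 1 ≤ d →
      ∀ (Ω : Type) [Fintype Ω] (μ : Ω → ℝ), IsProb μ →
        ∀ C : Ω → Circuit (Option (Fin n)) (Item n) w (n ^ c), (∀ ω, (C ω).SizeLE (n ^ a)) →
          (∀ ω, (C ω).IsLocal (somes n) d) →
          ApproximatesOn μ (fun ω => (C ω).eval) (InRange n (n + 1)) (shortcut n) →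
          (n : ℝ) ^ 3 ≤ 1900 * (a + w * c) * (d * mean μ (fun ω => (C ω).reads))) ∧
    (∀ n w q : ℕ, ∃ C : Circuit (Option (Fin n)) (Item n) w q, C.shared = 0 ∧
      C.load (somes n) ≤ n ^ 3 ∧ ∀ x, C.eval x = shortcut n x) := by
  refine ⟨fun _ _ _ _ hn ha han hw _ _ μ hμ C hC hF => minPlus_bound hn ha han hw μ hμ C hC hF,
    fun n a c w d hn ha han hw hd _ _ μ hμ C hC hL hF => ?_, fun n w q => minPlus_upper n w q⟩
  exact local_bound μ hμ (somes n) d hd C hL (by positivity)
    (minPlus_bound hn ha han hw μ hμ C hC hF)

end Pool.Agent.Results.MP_885423_lc.DependenceWeightedReads
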