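import Mathlib
import Pool.Agent.Q225.SD.MinPlus

/-!
# Shortest paths: circuits of formulas with determinants, with shared bits

A directed graph has three layers of `n` vertices and the edge weights `A i k` (first to second
layer), `B k j` (second to third layer) and `C i j` (first to third layer), integers in
`{1, …, n + 1}`. Is some edge `i → j` longer than a path `i → k → j`? The items of the input are the
weights of all edges at `i`, for each vertex `i` of the first layer, and the matrix `B`.

A formula (`Fml`, `Pool.Agent.Y649.DG.Defs`) is built from real constants, arbitrary real functions of
one item, and arbitrary real functions of `w` words with `n ^ c` values, where each word is an arbitrary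
function of one item, by sign tests `pos` (with the values `0`, `1`), gates `sym` of any fan-in whose
value is an arbitrary real function of the number of positive inputs, determinants `det` of real
matrices of any order whose entries are formulas (sums and products are determinants of order two),
and tests `reg`: is the matrix over an arbitrary field, of any order, whose entry `(a, b)` is `c' a b`
or `c a b`, according to whether the formula `(a, b)` is positive or not, regular?

A circuit (`Circuit`, `Pool.Agent.Q225.SD.Defs`) consists of any number of gates. Each gate is a
formula of size at most `n ^ a` which may read the items and the bits computed by all earlier gates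
(in the formulas, the bits of the earlier gates are further items); its bit tells whether its value is
positive, and may be used any number of times. For an item `i`, let `squares i` be the sum over all
gates of the square of the number of the leaves which see something that depends on item `i` (the item
itself, or the bit of a gate which depends on it, directly or by other gates). The load is the sum of
the square roots of these numbers over all vertices of the first layer.

1. Random circuits with error probability at most `1 / 3` need
   `n ^ 4 ≤ 16000000 (a + w c) E [load] ^ 2`, for `n ≥ 64` and `a ≥ 1`. So everything that is computed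
   from the matrix `B` alone is free.
2. If each gate has size at most `s`, and each bit that may be used depends on the weights at no more
   than `d` vertices of the first layer, then `n ^ 3 ≤ 16000000 (a + w c) s w d E [size]`; so small
   local gates need nearly cubic size.
3. Nondeterministic networks which are guarded by real formulas (`Net`; for instance branching
   programs) are circuits without shared gates, and their load is at most `w` times their size.

The starting results of this kind (`DeterminantGates`, for 3SUM and triangles) are about formulas,
without shared bits.

Proof. The weights at a vertex of the first layer can ask for about `n ^ 2 log₂ n` bits of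
the matrix `B` (binary search for each entry). We count the functions of these weights which
arise at the gates which depend on it, when the other items are fixed: for given functions at the
earlier gates, a gate is a formula in one item (this item with the functions of the earlier dependent
gates) and in independent parameters (everything else, also the bits of the gates which do not depend
on this item), and such a formula has `2 ^ O (r ^ 2 (a + w c) log n)` functions, if `r` leaves depend
on the item: the other parts of the formula enter a determinant with `r` live entries only through
`O (r ^ 2)` numbers (Schur complement; `Pool.Agent.Y649.DG.sub`, from the starting library, which rests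
on the theorems of Warren and of Rónyai, Babai and Ganapathy on sign and zero patterns).
-/

set_option autoImplicit false

namespace Pool.Agent.Results.MP_885423_lc.SharedDeterminants

open Pool.Agent.TH697.Form (IsProb)
open Pool.Agent.TH697.Row (ApproximatesOn)
open Pool.Agent.Y638.RF (Net)
open Pool.Agent.TH697.Form.MinPlus (Item InRange shortcut)
open Pool.Agent.Q225.SP (somes)
open Pool.Agent.Q225.SD

theorem result :
    (∀ n a c w : ℕ, 64 ≤ n → 1 ≤ a → 1 ≤ w →
      ∀ (Ω : Type) [Fintype Ω] (μ : Ω → ℝ), IsProb μ →
        ∀ C : Ω → Circuit (Option (Fin n)) (Item n) w (n ^ c), (∀ ω, (C ω).SizeLE (n ^ a)) →
          ApproximatesOn μ (fun ω => (C ω).eval) (InRange n (n + 1)) (shortcut n) →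
          (n : ℝ) ^ 4 ≤ 16000000 * (a + w * c) * mean μ (fun ω => (C ω).load (somes n)) ^ 2) ∧
    (∀ n a c w s d : ℕ, 64 ≤ n → 1 ≤ a → 1 ≤ w → 1 ≤ d → s ≤ n ^ a →
      ∀ (Ω : Type) [Fintype Ω] (μ : Ω → ℝ), IsProb μ →
        ∀ C : Ω → Circuit (Option (Fin n)) (Item n) w (n ^ c), (∀ ω, (C ω).SizeLE s) →
          (∀ ω, (C ω).IsLocal (somes n) d) →
          ApproximatesOn μ (fun ω => (C ω).eval) (InRange n (n + 1)) (shortcut n) →
          (n : ℝ) ^ 3 ≤ 16000000 * (a + w * c) *
            (s * w * d * mean μ (fun ω => ((C ω).size : ℝ)))) ∧
    (∀ (ι : Type) (D : ι → Type) [DecidableEq ι] (I : Finset ι) (w q : ℕ) (N : Net ι D w q),
      1 ≤ w → ∃ C : Circuit ι D w q, C.shared = 0 ∧ C.size ≤ N.size ∧ C.load I ≤ w * N.size ∧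
        ∀ x, C.eval x = N.eval x) :=
  ⟨fun _ _ _ _ hn ha hw _ _ μ hμ C hC hF => minPlus_bound hn ha hw μ hμ C hC hF,
    fun _ _ _ _ _ _ hn ha hw hd hs _ _ μ hμ C hC hL hF =>
      minPlus_local hn ha hw hd hs μ hμ C hC hL hF,
    fun _ _ _ I _ _ N hw => exists_of_net I N hw⟩

end Pool.Agent.Results.MP_885423_lc.SharedDeterminants
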