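import Pool.Agent.Q226.APF.Main

/-!
# All-pairs shortest paths with unreliable negations needs cubic cost

The inputs are complete directed graphs on `Fin n` with the weights `1` and `W`. They are given by
bits: for each pair `e = (u, v)` and each tag `k < K`, the bit of the position `(e, k)` tells whether
the edge from `u` to `v` has the weight `1`, written down with the tag `k`. Only inputs with at most
one tag for each edge are considered; the tags have no meaning.

The model: straight-line programs with registers for real numbers. At the start they contain the
values (`0` or `1`) of the bits and of their negations. A step replaces the contents of a register by
any nondecreasing real function of the contents of any number `k` of registers; its cost is `k`.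
At the end, the negative of the number in the output register `(u, v)` is the estimate of the distance
from `u` to `v`. A randomised program is a finite family of such programs, one of which is chosen
uniformly at random. The model contains all circuits of AND and OR gates on the bits and their
negations, hence all Boolean circuits, and all programs with minima, maxima, sums and rounding of
numbers from such bits.

Faults: each negated bit (the information that there is no `1` at a position) is stuck at `0`,
independently with probability `1 / D`. Everything else is reliable. Faults can only make an estimate
larger.

Theorem. Let `n ≥ 3 * 10 ^ 6`, `α ≥ 1`, `W > 2 α`, let the fault rate `1 / D` be as small as one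
likes, and let `K ≥ D log (40 n ^ 2)`. If for every input and all `u ≠ v` the estimate is at most
`α` times the distance with probability at least `4 / 5` under faults, and at least the distance with
probability at least `4 / 5` without faults, then some program of the family has cost at least
`n ^ 3 / 10 ^ 6`.

* Without faults the bound is far from true: all the negated bits and bits together form an antichain,
  so two steps of cost `2 n ^ 2 K` with suitable nondecreasing functions compute a code of the graph
  and its negative, and two numbers per pair are then enough, for total cost `4 n ^ 2 K + 2 n ^ 2`.
  Also in the full model fast matrix multiplication solves these instances (within the factor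
  `1 + ε`) in time `n ^ 2.38`. So neither can be made to work with negated inputs that are unreliable
  at a rate as small as one likes.
* Cost `O(n ^ 2 (n + K))` is enough without negations.
* For `D = 1` all negated bits are `0`. This is the case of monotone real programs, part of the
  starting result `MonotoneRealPrograms`, which is used in the proof (that result has no tags, and
  the weights themselves are the inputs).

The proof: every edge of a graph gets a random tag. The negated bits of the positions that the edges
of weight `W` would get are as good as faulty ones, because with high probability every edge has a
faulty position. So all negated bits that depend on the weights can be replaced by `0`, which gives a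
randomised monotone real program for the weights, with cost larger by `n ^ 2`.
-/

set_option autoImplicit false

namespace Pool.Agent.Results.MP_885423_lc.UnreliableNegations

open Pool.Agent.H587R2.MRB Pool.Agent.Q226.FL2 Pool.Agent.Q226.APF

/-- Let `n ≥ 3 * 10 ^ 6`, `α ≥ 1`, `W > 2 α`, `D ≥ 1` and `K ≥ D log (40 n ^ 2)`. Let `P ω`, `ω ∈ Ω`,
be straight-line programs with nondecreasing real functions, on the bits of the positions and their
negations. Assume that for every input `x` with at most one tag for each edge and all vertices
`u ≠ v`, the estimate of the distance from `u` to `v` in the graph with the weights `weight W x` is at
most `α` times the distance with probability at least `4 / 5` over `ω` and the faults, where each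
negated bit is stuck at `0` with probability `1 / D`, and at least the distance with probability at
least `4 / 5` over `ω` without faults. Then some `P ω` has cost at least `n ^ 3 / 10 ^ 6`. -/
theorem result (n : ℕ) (hn : 3 * 10 ^ 6 ≤ n) (W D K : ℕ) (α : ℝ) (hα : 1 ≤ α) (hW : 2 * α < W)
    (hD : 1 ≤ D) (hK : D * Real.log (40 * n ^ 2) ≤ K) (Ω : Type) [Fintype Ω] [Nonempty Ω]
    (P : Ω → Prog (Position n K × Bool) (Fin n × Fin n)) (hP : ∀ ω, (P ω).leaves = 1)
    (h : ∀ x : Position n K → Bool, OneTag x → ∀ u v, u ≠ v →
      4 / 5 ≤ faultyProbability (fun ω y => estimate (P ω) y u v ≤ α * dist (weight W x) u v) D x ∧
      4 / 5 ≤ probability (fun ω y => (dist (weight W x) u v : ℝ) ≤ estimate (P ω) y u v) x) :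
    ∃ ω, ∀ s, (n : ℝ) ^ 3 ≤ 10 ^ 6 * (P ω).cost s :=
  main n hn W D K α hα hW hD hK Ω P hP h

end Pool.Agent.Results.MP_885423_lc.UnreliableNegations
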