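import Mathlib
import Pool.Agent.Q225.LS.Upper

/-!
# Shortest paths: few qubits

A directed graph has three layers of `n` vertices and the edge weights `A i k` (first to second
layer), `B k j` (second to third layer) and `C i j` (first to third layer), integers in
`{1, …, n + 1}`. Is some edge `i → j` longer than a path `i → k → j`? The items of the input are the
weights of all edges at `i`, for each vertex `i` of the first layer, and the matrix `B`. Only the reads
of the weights at vertices of the first layer are counted.

The memory of a machine (`Machine`, `Pool.Agent.Q225.LS.Defs`) is a vector with the coordinates `S`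
over a field. In each step one item is read, and the vector is multiplied by a matrix which is an
arbitrary function of this item; the order of the reads is fixed in advance (but it may be random, since
we consider random machines). At the end a linear function of the vector is computed; the machine
accepts if its value is positive (`positive`, over the real numbers), or if it is not zero
(`nonzero`, over any field). So there are no restrictions on the numbers in the memory and on the
computation, and the gap between acceptance and rejection may be arbitrarily small. Such machines
contain all oblivious algorithms with `log₂ |S|` bits of memory, deterministic, randomised with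
unbounded error, nondeterministic or counting modulo a prime. In a quantum machine (`Quantum`) the
memory is a vector in `ℂ ^ S` (`k` qubits: `|S| = 2 ^ k`), the matrices are arbitrary complex matrices
(so postselection is allowed), and the machine accepts if the last state is more than half in the
accepting basis states.

Result: random machines with error probability at most `1 / 3` and at most `n ^ a` reads need
`n ^ 3 / (72 a) ≤ |S| ^ 2 (E [reads] + n)`, for `n ≥ 64` and `a ≥ 1`, and quantum machines need
`n ^ 3 / (72 a) ≤ 16 |S| ^ 4 (E [reads] + n)`. So `n ^ (3 - o (1))` reads are necessary with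
`o (log n)` qubits. Conversely, a deterministic machine over the real numbers with three coordinates
and `n ^ 3` reads answers the question for all weights, so for a constant number of coordinates
the first bound is optimal up to a constant factor.

Proof. The weights at vertex `i` of the first layer can ask for about `n ^ 2 log₂ n` bits of the
matrix `B` (binary search for each entry). If the other items are fixed and `i` is read `r` times, then the
value of the machine is a polynomial of degree `r + 1` in `(r + 1) |S| ^ 2` parameters, the entries of
the matrices of the steps between these reads. So `i` has at most `N ^ ((r + 1) |S| ^ 2)` functions,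
`log₂ N = O (a log₂ n)`, by the theorems of Warren (signs) and of Rónyai, Babai and Ganapathy (zero
patterns). The state of a quantum machine is replaced by its tensor square over the real numbers.
-/

set_option autoImplicit false

namespace Pool.Agent.Results.MP_885423_lc.VectorMemory

open Pool.Agent.TH697.Form (IsProb)
open Pool.Agent.TH697.Row (ApproximatesOn)
open Pool.Agent.TH697.Form.MinPlus (Item InRange shortcut)
open Pool.Agent.Q225.SP (somes card_somes)
open Pool.Agent.Q225.LS

theorem result : (∀ n a : ℕ, 64 ≤ n → 1 ≤ a →
    ∀ (S : Type) [Fintype S] [DecidableEq S] (Ω : Type) [Fintype Ω] (μ : Ω → ℝ), IsProb μ →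
      (∀ C : Ω → Machine (Option (Fin n)) (Item n) S ℝ,
        (∀ ω, (C ω).reads (somes n) ≤ n ^ a) →
        ApproximatesOn μ (fun ω => (C ω).positive) (InRange n (n + 1)) (shortcut n) →
        (n : ℝ) ^ 3 / (72 * a) ≤
          (Fintype.card S : ℝ) ^ 2 * (mean μ (fun ω => (C ω).reads (somes n)) + n)) ∧
      (∀ (F : Type) [Field F] (C : Ω → Machine (Option (Fin n)) (Item n) S F),
        (∀ ω, (C ω).reads (somes n) ≤ n ^ a) →
        ApproximatesOn μ (fun ω => (C ω).nonzero) (InRange n (n + 1)) (shortcut n) →
        (n : ℝ) ^ 3 / (72 * a) ≤
          (Fintype.card S : ℝ) ^ 2 * (mean μ (fun ω => (C ω).reads (somes n)) + n)) ∧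
      (∀ C : Ω → Quantum (Option (Fin n)) (Item n) S,
        (∀ ω, (C ω).reads (somes n) ≤ n ^ a) →
        ApproximatesOn μ (fun ω => (C ω).eval) (InRange n (n + 1)) (shortcut n) →
        (n : ℝ) ^ 3 / (72 * a) ≤
          16 * (Fintype.card S : ℝ) ^ 4 * (mean μ (fun ω => (C ω).reads (somes n)) + n))) ∧
    ∀ n : ℕ, ∃ C : Machine (Option (Fin n)) (Item n) (Fin 3) ℝ, C.reads (somes n) = n ^ 3 ∧
      ∀ x, C.positive x = shortcut n x := by
  refine ⟨fun n a hn ha S _ _ Ω _ μ hμ => ?_, minPlus_upper⟩
  obtain ⟨b, hb⟩ : ∃ b, b = Nat.log 2 n := ⟨_, rfl⟩
  obtain ⟨hpow, hg⟩ := good_minPlus hn ha hb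
  have hk := asks_somes (D := Item n) (f := shortcut n) (Pool.Agent.Y638.RF.MinPlus.asks hpow)
  have hin : ∀ x : ∀ i, Item n i, InRange n (2 ^ b + 1) x → InRange n (n + 1) x := fun x hx =>
    Pool.Agent.TH457.Ary.MinPlus.inRange_mono (by omega) x hx
  refine ⟨fun C hL hF => ?_, fun F _ C hL hF => ?_, fun C hL hF => ?_⟩
  · have h := positive_bound hg hk μ hμ C hL (fun x hx => hF x (hin x hx))
    rwa [card_somes] at h
  · have h := nonzero_bound hg hk μ hμ C hL (fun x hx => hF x (hin x hx))
    rwa [card_somes] at h
  · have h := quantum_bound hg hk μ hμ C hL (fun x hx => hF x (hin x hx))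
    rwa [card_somes] at h

end Pool.Agent.Results.MP_885423_lc.VectorMemory
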